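import Pool.Agent.KS6_94.SM.Max

/-!
# `Σ₁` maximality for `ω_1, …, ω_n`, all `n` at once, and for arbitrary definable parameters

The principle (A) of the problem says that every `Σ₁` statement with parameters `ω₁`, `ω₂` that
can be forced by a notion of forcing that preserves `ω₁` and `ω₂` holds. Let (A_n) be the same
principle for the parameters `ω_1, …, ω_n` and the notions of forcing that preserve them, so that
(A) is (A_2). We show that the principles (A_n) are consistent with ZFC for all `n` together, and
that they can be obtained over every consistent extension of ZFC, with respect to the notions of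
forcing that preserve this extension, and for any sequence of definable parameters in place of
the `ω_n`.
-/

set_option autoImplicit false

namespace Pool.Agent.Results.MP_77fe52_lc.AllAlephs

open FirstOrder FirstOrder.Language
open Pool.Agent.Helper672.Plain (LSet)
open Pool.Agent.T6.H70.SA
open Pool.Agent.KS6_94.SM

/-- (1) There is a theory `T'` which has a countable model, all of whose models are models of ZFC
in which the cardinals `ω_n` exist, such that all countable models of `T'` satisfy the principles
(A_n) for all `n` (`PrincipleA`), and all models of `T'` satisfy them for arbitrary outer models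
(`OuterA`).

(2) The notions of forcing of the countable models of ZFC have generic extensions that are models
of ZFC (so `PrincipleA` is not void).

(3) Let `T` be any satisfiable theory all of whose models are models of ZFC, and let
`δ_0, δ_1, …` be any formulas in one variable. There is a satisfiable theory `T'` that contains
`T` such that all models of `T'` are maximal, with respect to their outer models that satisfy
`T`, for the `Σ₁` statements about finitely many of the elements defined by the `δ_n`, and such
that the countable ones are maximal with respect to the notions of forcing that preserve `T`. -/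
theorem result :
    (∃ T' : LSet.Theory, (∃ (N : Type) (_ : LSet.Structure N), Countable N ∧ N ⊨ T') ∧
      ∀ (N : Type) [LSet.Structure N], N ⊨ T' →
        ZFC N ∧ (∀ n, ∃ x : N, IsAleph n x) ∧ (∀ n, OuterA n N) ∧
          (Countable N → ∀ n, PrincipleA n N)) ∧
    (∀ (N : Type) [LSet.Structure N] [Countable N] [ZFC N] (P le : N), IsPoset P le →
      ∃ (N' : Type) (_ : LSet.Structure N') (_ : ZFC N') (j : N → N') (G : N'),
        IsGenericExtension j P le G) ∧
    (∀ (T : LSet.Theory) (δ : ℕ → LSet.Formula (Fin 1)), T.IsSatisfiable →
      (∀ (N : Type) [LSet.Structure N], N ⊨ T → ZFC N) →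
      ∃ T' : LSet.Theory, T ⊆ T' ∧ T'.IsSatisfiable ∧
        ∀ (N : Type) [LSet.Structure N], N ⊨ T' →
          Maximal T δ N ∧ (Countable N → ForcingMaximal T δ N)) := by
  refine ⟨?_, fun N _ _ _ P le hP => exists_gext N hP, ?_⟩
  · obtain ⟨T', h1, h2, h3⟩ := exists_maximal (fun n => alephF (n + 1)) zfcT zfcT_sat
    have hz : ∀ (N : Type) [LSet.Structure N], N ⊨ T' → ZFC N := fun N _ hN =>
      zfc_of_zfcT (hN.mono h1)
    have hout : ∀ (N : Type) [LSet.Structure N], N ⊨ T' → ∀ n, OuterA n N := by
      intro N _ hN n a ha φ hφ N' _ hN' j hj hja hr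
      have hZ := hz N hN
      obtain ⟨x, -⟩ := exists_omega hZ
      have : Nonempty N := ⟨x⟩
      exact h3 N hN n a (fun i => (the_aleph _ _).2 (ha i)) φ hφ N' j (zfcT_of hN') hj
        (fun i => (the_aleph _ _).2 (hja i)) hr
    refine ⟨T', ?_, fun N _ hN => ⟨hz N hN, aleph_exists (hz N hN), hout N hN, ?_⟩⟩
    · obtain ⟨N, i, hc, hN⟩ := exists_countable_model h2
      exact ⟨N, i, hc, hN⟩
    · intro hc n a ha φ hφ P le hP hpres hforce
      have hZ := hz N hN
      obtain ⟨N', _, hN', j, G, hG⟩ := exists_gext N hP
      exact hout N hN n a ha φ hφ N' j hG.emb (hpres N' j G hG) (hforce N' j G hG)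
  · intro T δ hT hZT
    obtain ⟨T', h1, h2, h3⟩ := exists_maximal δ T hT
    refine ⟨T', h1, h2, fun N _ hN => ?_⟩
    have hZ : ZFC N := hZT N (hN.mono h1)
    obtain ⟨x, -⟩ := exists_omega hZ
    have : Nonempty N := ⟨x⟩
    refine ⟨h3 N hN, fun hc n a ha φ hφ P le hP hforce => ?_⟩
    obtain ⟨N', _, hN', j, G, hG⟩ := exists_gext N hP
    obtain ⟨h4, h5, h6⟩ := hforce N' j G hG
    exact h3 N hN n a ha φ hφ N' j h4 hG.emb h5 h6

end Pool.Agent.Results.MP_77fe52_lc.AllAlephs
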